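import Pool.Agent.Work.MP_c1fc37_lc.Bn.Main

universe u

namespace Pool.Agent.Results.MP_c1fc37_lc.BeyondChainCondition

open Cardinal Pool.Agent.Work.MP_c1fc37_lc

/-- For an uncountable successor cardinal `κ = μ⁺` no tree forcing on `2^{<κ}` is simultaneously
`<κ`-closed (or only `<κ`-strategically closed), `κ^κ`-bounding and `κ⁺`-cc; the chain condition
is not needed when every `τ ≤ μ` has `2 ^ τ ≤ μ` or `2 ^ τ = 2 ^ μ`. -/
theorem result (μ : Cardinal.{u}) (hμ : ℵ₀ ≤ μ) :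
    ¬ ∃ P : Set (Set (Node (Order.succ μ))),
      IsTreeForcing P ∧ (IsLtClosed P ∨ IsLtStratClosed P) ∧ IsBounding P ∧
        (IsSuccCC P ∨ ∀ τ : Cardinal.{u}, τ ≤ μ → 2 ^ τ ≤ μ ∨ (2 : Cardinal.{u}) ^ τ = 2 ^ μ) := by
  rintro ⟨P, hP, hc, hb, hcc⟩
  have hc' := hc.elim St.strat_of_closed id
  exact Bn.not_bounding hμ rfl hP hc' (hcc.elim (Bn.hyp_of_cc rfl hP hc') id) hb

end Pool.Agent.Results.MP_c1fc37_lc.BeyondChainCondition
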